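import Pool.Agent.H90.STK.Defs

/-!
# No partial turning: the entropy part

`P₀`, `P₁` are the positions of a random line `l` at two times of a window (the times are part of
`τ`), `b₀`, `b₁` are the planks through these positions. If the position at each time is full in
its plank, the intersection of the two planks loses `g`, and the union of the planks seen from
`b₀` has only `h` more room, then `g - h` is at most twice the deficit.
-/

set_option autoImplicit false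

namespace Pool.KUN

open Finset Real
open Pool.Agent.H49.Ent Pool.Agent.H32.Dense Pool.STK

/-- `b₀` is visible from the position at time zero, the line is as uncertain given the one position
as given the other: then the second position is as full in `b₀` as the first one. -/
theorem te_stat {Ω Λ Τ A B : Type} [Fintype Ω] {p : Ω → ℝ} (hp : ∀ ω, 0 ≤ p ω) (l : Ω → Λ)
    (τ : Ω → Τ) (P₀ P₁ : Ω → A) (b : Ω → B)
    (h0 : Det p (fun ω => (l ω, τ ω)) P₀) :
    CH p P₀ (fun ω => (b ω, τ ω)) ≤ CH p P₁ (fun ω => (b ω, τ ω)) +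
      CH p b (fun ω => (P₀ ω, τ ω)) +
      (CH p l (fun ω => (P₁ ω, τ ω)) - CH p l (fun ω => (P₀ ω, τ ω))) := by
  -- position one
  have a1 : CH p l (fun ω => (b ω, τ ω)) ≤
      CH p P₁ (fun ω => (b ω, τ ω)) + CH p l (fun ω => (P₁ ω, τ ω)) := by
    refine (CH_le_add hp l P₁ _).trans ?_
    have : CH p l (fun ω => (P₁ ω, (b ω, τ ω))) ≤ CH p l (fun ω => (P₁ ω, τ ω)) :=
      CH_mono_cond hp fun ω ω' _ _ h => by
        simp only [Prod.mk.injEq] at h ⊢
        exact ⟨h.1, h.2.2⟩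
    linarith
  -- position zero
  have a2 : CH p P₀ (fun ω => (b ω, τ ω)) + CH p l (fun ω => (P₀ ω, (b ω, τ ω))) =
      CH p l (fun ω => (b ω, τ ω)) := by
    rw [← CH_chain hp]
    refine CH_congr hp ?_ ?_ (fun _ _ _ _ h => h) (fun _ _ _ _ h => h)
    · intro ω ω' _ _ h
      simp only [Prod.mk.injEq] at h
      exact h.1.1
    · intro ω ω' h₁ h₂ h
      simp only [Prod.mk.injEq] at h ⊢
      exact ⟨h.1, h0 ω ω' h₁ h₂ (by simp only [Prod.mk.injEq]; exact ⟨h.1, h.2.2⟩)⟩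
  have a3 : CH p l (fun ω => (P₀ ω, τ ω)) ≤
      CH p b (fun ω => (P₀ ω, τ ω)) + CH p l (fun ω => (P₀ ω, (b ω, τ ω))) := by
    refine (CH_le_add hp l b _).trans ?_
    have : CH p l (fun ω => (b ω, (P₀ ω, τ ω))) ≤ CH p l (fun ω => (P₀ ω, (b ω, τ ω))) :=
      CH_mono_cond hp fun ω ω' _ _ h => by
        simp only [Prod.mk.injEq] at h ⊢
        exact ⟨h.2.1, h.1, h.2.2⟩
    linarith
  linarith

/-- The second plank is not determined by the first one. -/
theorem te_low {Ω Τ A B B' : Type} [Fintype Ω] {p : Ω → ℝ} (hp : ∀ ω, 0 ≤ p ω)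
    (τ : Ω → Τ) (P : Ω → A) (b₀ : Ω → B) (b₁ : Ω → B') :
    CH p P (fun ω => (b₀ ω, τ ω)) - CH p P (fun ω => (b₁ ω, (b₀ ω, τ ω))) ≤
      CH p b₁ (fun ω => (b₀ ω, τ ω)) := by
  have := CH_le_add hp P b₁ (fun ω => (b₀ ω, τ ω))
  linarith

/-- A second point `X''` of the plank `b₁`, independent of `b₀` given `b₁`, is much less
determined by `b₀` than by `b₁`. -/
theorem te_copy {Ω Τ A B B' : Type} [Fintype Ω] {p : Ω → ℝ} (hp : ∀ ω, 0 ≤ p ω)
    (τ : Ω → Τ) (P : Ω → A) (b₀ : Ω → B) (b₁ : Ω → B') :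
    CH p b₁ (fun ω => (b₀ ω, τ ω)) + CH p P (fun ω => (b₁ ω, τ ω)) ≤
      CH (dbl p fun ω => (b₁ ω, τ ω)) (fun w => P w.2) (fun w => (b₀ w.1, τ w.1)) +
        CH p b₁ (fun ω => (P ω, τ ω)) := by
  set b : Ω → B' × Τ := fun ω => (b₁ ω, τ ω) with hb
  set Q : Ω × Ω → ℝ := dbl p b with hQ
  have hQ0 : ∀ w, 0 ≤ Q w := dbl_nonneg hp
  have heq : ∀ w, 0 < Q w → b₁ w.1 = b₁ w.2 ∧ τ w.1 = τ w.2 := by
    intro w hw
    have h := dbl_eq hp hw
    simpa [hb] using h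
  -- the entropy of the pair `(X'', b₁)` given `b₀`
  have c1 := CH_chain hQ0 (fun w => P w.2) (fun w => b₁ w.1) (fun w => (b₀ w.1, τ w.1))
  have c2 := CH_chain hQ0 (fun w => b₁ w.1) (fun w => P w.2) (fun w => (b₀ w.1, τ w.1))
  have c3 : CH Q (fun w => (P w.2, b₁ w.1)) (fun w => (b₀ w.1, τ w.1)) =
      CH Q (fun w => (b₁ w.1, P w.2)) (fun w => (b₀ w.1, τ w.1)) := by
    refine CH_congr hQ0 ?_ ?_ (fun _ _ _ _ h => h) (fun _ _ _ _ h => h) <;>
    · intro w w' _ _ h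
      simp only [Prod.mk.injEq] at h ⊢
      tauto
  have d1 : CH Q (fun w => b₁ w.1) (fun w => (b₀ w.1, τ w.1)) =
      CH p b₁ (fun ω => (b₀ ω, τ ω)) := (dbl_fst hp).CH b₁ (fun ω => (b₀ ω, τ ω))
  -- conditional independence
  have d2 : CH Q (fun w => P w.2) (fun w => (b₁ w.1, (b₀ w.1, τ w.1))) = CH p P b := by
    rw [← CH_dbl_2 (b := b) hp P b₀]
    refine CH_congr hQ0 ?_ ?_ ?_ ?_
    · intro w w' _ _ h
      exact (Prod.ext_iff.mp h).1
    · intro w w' _ _ h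
      exact (Prod.ext_iff.mp h).1
    · intro w w' hw hw' h
      simp only [Prod.mk.injEq] at h
      refine Prod.ext ?_ h.2.1
      change (b₁ w.2, τ w.2) = (b₁ w'.2, τ w'.2)
      rw [← (heq w hw).1, ← (heq w' hw').1, ← (heq w hw).2, ← (heq w' hw').2, h.1, h.2.2]
    · intro w w' hw hw' h
      have h1 : b w.2 = b w'.2 := (Prod.ext_iff.mp h).1
      have h2 : b₀ w.1 = b₀ w'.1 := (Prod.ext_iff.mp h).2
      simp only [hb, Prod.mk.injEq] at h1
      refine Prod.ext ?_ (Prod.ext h2 ?_)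
      · change b₁ w.1 = b₁ w'.1
        rw [(heq w hw).1, (heq w' hw').1]
        exact h1.1
      · change τ w.1 = τ w'.1
        rw [(heq w hw).2, (heq w' hw').2]
        exact h1.2
  have d3 : CH Q (fun w => b₁ w.1) (fun w => (P w.2, (b₀ w.1, τ w.1))) ≤
      CH p b₁ (fun ω => (P ω, τ ω)) := by
    have e1 : CH Q (fun w => b₁ w.1) (fun w => (P w.2, (b₀ w.1, τ w.1))) ≤
        CH Q (fun w => b₁ w.1) (fun w => (P w.2, τ w.1)) :=
      CH_mono_cond hQ0 fun w w' _ _ h => by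
        simp only [Prod.mk.injEq] at h ⊢
        exact ⟨h.1, h.2.2⟩
    have e2 : CH Q (fun w => b₁ w.1) (fun w => (P w.2, τ w.1)) =
        CH Q (fun w => b₁ w.2) (fun w => (P w.2, τ w.2)) := by
      refine CH_congr hQ0 ?_ ?_ ?_ ?_
      · intro w w' hw hw' h
        have h1 := (Prod.ext_iff.mp h).1
        change b₁ w.2 = b₁ w'.2
        rw [← (heq w hw).1, ← (heq w' hw').1]
        exact h1
      · intro w w' hw hw' h
        have h1 := (Prod.ext_iff.mp h).1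
        change b₁ w.1 = b₁ w'.1
        rw [(heq w hw).1, (heq w' hw').1]
        exact h1
      · intro w w' hw hw' h
        simp only [Prod.mk.injEq] at h ⊢
        refine ⟨h.1, ?_⟩
        rw [← (heq w hw).2, ← (heq w' hw').2]
        exact h.2
      · intro w w' hw hw' h
        simp only [Prod.mk.injEq] at h ⊢
        refine ⟨h.1, ?_⟩
        rw [(heq w hw).2, (heq w' hw').2]
        exact h.2
    have e3 : CH Q (fun w => b₁ w.2) (fun w => (P w.2, τ w.2)) =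
        CH p b₁ (fun ω => (P ω, τ ω)) := (dbl_snd (b := b) hp).CH b₁ (fun ω => (P ω, τ ω))
    linarith
  linarith

/-- **No partial turning**, entropy part. -/
def TEAStmt : Prop :=
  ∀ (Ω Λ Τ A B B' : Type) [Fintype Ω] (p : Ω → ℝ) (l : Ω → Λ) (τ : Ω → Τ) (P₀ P₁ : Ω → A)
    (b₀ : Ω → B) (b₁ : Ω → B') (a g h d e₀ e₁ eₛ : ℝ), (∀ ω, 0 ≤ p ω) →
    Det p (fun ω => (l ω, τ ω)) P₀ →
    CH p l (fun ω => (P₁ ω, τ ω)) ≤ CH p l (fun ω => (P₀ ω, τ ω)) + eₛ →
    CH p b₀ (fun ω => (P₀ ω, τ ω)) ≤ e₀ →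
    CH p b₁ (fun ω => (P₁ ω, τ ω)) ≤ e₁ →
    a - d ≤ CH p P₀ (fun ω => (b₀ ω, τ ω)) →
    a - d ≤ CH p P₁ (fun ω => (b₁ ω, τ ω)) →
    CH p P₁ (fun ω => (b₁ ω, (b₀ ω, τ ω))) ≤ a - g →
    CH (dbl p fun ω => (b₁ ω, τ ω)) (fun w => P₁ w.2) (fun w => (b₀ w.1, τ w.1)) ≤ a + h →
    g - h ≤ 2 * d + e₀ + e₁ + eₛ

theorem tea_thm : TEAStmt := by
  intro Ω Λ Τ A B B' _ p l τ P₀ P₁ b₀ b₁ a g h d e₀ e₁ eₛ hp hdet hS hV₀ hV₁ hF₀ hF₁ hC hU
  have s1 := te_stat hp l τ P₀ P₁ b₀ hdet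
  have s2 := te_low hp τ P₁ b₀ b₁
  have s3 := te_copy hp τ P₁ b₀ b₁
  linarith

end Pool.KUN
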